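import Mathlib
import Pool.Agent.Helper897.MeasNu

set_option autoImplicit false

open Complex ComplexConjugate Metric Filter Topology

namespace Pool.Agent.Results.MP_e1108f_an.DecayNotBlaschke

noncomputable section

/-- `g` belongs to `H^∞`: analytic and bounded on the open unit disc. -/
def InHinf (g : ℂ → ℂ) : Prop :=
  DifferentiableOn ℂ g (ball 0 1) ∧ ∃ M : ℝ, ∀ w ∈ ball (0:ℂ) 1, ‖g w‖ ≤ M

/-- The supremum norm on the open unit disc. -/
def supNorm (g : ℂ → ℂ) : ℝ := ⨆ w : ball (0:ℂ) 1, ‖g w‖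

/-- A Blaschke sequence: distinct points of the open unit disc with `∑ (1 - |z_n|) < ∞`. -/
def IsBlaschkeSequence (z : ℕ → ℂ) : Prop :=
  Function.Injective z ∧ (∀ n, ‖z n‖ < 1) ∧ Summable (fun n => 1 - ‖z n‖)

/-- The pseudo-hyperbolic distance. -/
def rho (z w : ℂ) : ℝ := ‖(z - w) / (1 - conj w * z)‖

/-- Weakly separated sequences: `inf_{m ≠ n} ρ(z_m, z_n) > 0`. -/
def IsWeaklySeparated (z : ℕ → ℂ) : Prop :=
  ∃ δ : ℝ, 0 < δ ∧ ∀ m n : ℕ, m ≠ n → δ ≤ rho (z m) (z n)

/-- Blaschke products `e^{iθ} w^k ∏_j (|a_j|/a_j) (a_j - w)/(1 - conj(a_j) w)`, where `(a_j)` is a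
finite or infinite family of nonzero points of the disc (repetitions allowed) with
`∑ (1 - |a_j|) < ∞`. -/
def IsBlaschkeProduct (B : ℂ → ℂ) : Prop :=
  ∃ (θ : ℝ) (k : ℕ) (ι : Type) (_ : Countable ι) (a : ι → ℂ),
    (∀ j, a j ≠ 0 ∧ ‖a j‖ < 1) ∧ Summable (fun j => 1 - ‖a j‖) ∧
    ∀ w ∈ ball (0:ℂ) 1, ∃ P : ℂ,
      HasProd (fun j => ((‖a j‖ : ℂ) / a j) * ((a j - w) / (1 - conj (a j) * w))) P ∧
      B w = Complex.exp (θ * I) * w ^ k * P

/-- `g` is a minimal-norm interpolant of `f` on `z`. -/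
def IsMinimalNormInterpolant (f : ℂ → ℂ) (z : ℕ → ℂ) (g : ℂ → ℂ) : Prop :=
  InHinf g ∧ (∀ n, g (z n) = f (z n)) ∧
  ∀ h : ℂ → ℂ, InHinf h → (∀ n, h (z n) = f (z n)) → supNorm g ≤ supNorm h

/-- The minimal-norm interpolant `g` of `f` on `z` is unique (as a function on the disc). -/
def IsUniqueMinimalNormInterpolant (f : ℂ → ℂ) (z : ℕ → ℂ) (g : ℂ → ℂ) : Prop :=
  IsMinimalNormInterpolant f z g ∧
  ∀ h : ℂ → ℂ, IsMinimalNormInterpolant f z h → Set.EqOn h g (ball 0 1)

open Pool.Agent.Helper897.InnerUnique Pool.Agent.Helper897.NevF Pool.Agent.Helper897.Uniq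
  Pool.Agent.Helper897.BlaschkeDiv Pool.Agent.Helper897.MeasNu

instance : Nonempty (ball (0:ℂ) 1) := ⟨⟨0, by simp⟩⟩

/-- The zero-free function of the counterexample. -/
def F (z : ℂ) : ℂ := Pool.Agent.Helper897.NevF.f nu (W z)

lemma F_ne_zero (z : ℂ) : F z ≠ 0 := Complex.exp_ne_zero _

lemma F_norm_le_one {z : ℂ} (hz : z ∈ ball (0:ℂ) 1) : ‖F z‖ ≤ 1 := norm_f_le_one nu (W_im_pos hz)

lemma F_differentiableOn : DifferentiableOn ℂ F (ball 0 1) := by
  intro z hz
  apply DifferentiableAt.differentiableWithinAt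
  have h1 : DifferentiableAt ℂ (Pool.Agent.Helper897.NevF.f nu) (W z) := by
    apply (f_differentiableOn nu (W z) (W_im_pos hz)).differentiableAt
    exact (isOpen_lt continuous_const Complex.continuous_im).mem_nhds
      (show W z ∈ {w : ℂ | (0:ℝ) < w.im} from W_im_pos hz)
  apply DifferentiableAt.comp z h1
  unfold W
  have := one_sub_ne hz
  exact DifferentiableAt.const_mul (DifferentiableAt.div (by fun_prop) (by fun_prop) this) _

lemma F_inHinf : InHinf F := ⟨F_differentiableOn, 1, fun _ hw => F_norm_le_one hw⟩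

lemma supNorm_F_le : supNorm F ≤ 1 := ciSup_le (fun w => F_norm_le_one w.2)

lemma le_supNorm {g : ℂ → ℂ} (hg : InHinf g) {w : ℂ} (hw : w ∈ ball (0:ℂ) 1) :
    ‖g w‖ ≤ supNorm g := by
  obtain ⟨-, M, hM⟩ := hg
  refine le_ciSup (f := fun w : ball (0:ℂ) 1 => ‖g w‖) ⟨M, ?_⟩ ⟨w, hw⟩
  rintro _ ⟨v, rfl⟩
  exact hM v v.2

lemma supNorm_congr {g h : ℂ → ℂ} (H : Set.EqOn g h (ball 0 1)) : supNorm g = supNorm h := by
  unfold supNorm
  congr 1
  funext w
  rw [H w.2]

/-- Uniqueness in the unit ball makes `F` the unique minimal-norm interpolant. -/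
lemma unique_minimal (z : ℕ → ℂ)
    (huniq : ∀ h : ℂ → ℂ, DifferentiableOn ℂ h (ball 0 1) → (∀ ζ ∈ ball (0:ℂ) 1, ‖h ζ‖ ≤ 1) →
      (∀ n, h (z n) = F (z n)) → Set.EqOn h F (ball 0 1)) :
    IsUniqueMinimalNormInterpolant F z F := by
  refine ⟨⟨F_inHinf, fun _ => rfl, ?_⟩, ?_⟩
  · intro h hh hint
    by_contra hcon
    push Not at hcon
    have h1 := huniq h hh.1 (fun ζ hζ => (le_supNorm hh hζ).trans (hcon.le.trans supNorm_F_le)) hint
    rw [supNorm_congr h1] at hcon
    exact lt_irrefl _ hcon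
  · intro h hh
    have h2 := hh.2.2 F F_inHinf (fun _ => rfl)
    exact huniq h hh.1.1 (fun ζ hζ => (le_supNorm hh.1 hζ).trans (h2.trans supNorm_F_le)) hh.2.1

lemma Z_W {z : ℂ} (hz : z ∈ ball (0:ℂ) 1) : Z (W z) = z := by
  have h1 := one_sub_ne hz
  have h2 := W_add_I hz
  have h3 : W z - I = 2 * I * z / (1 - z) := by
    have : W z - I = (W z + I) - 2 * I := by ring
    rw [this, h2]
    field_simp
    ring
  unfold Z
  rw [h2, h3]
  have hI := I_ne_zero
  field_simp

lemma hasProd_zero_of {ι : Type} {f : ι → ℂ} {P : ℂ} (h : HasProd f P) {i : ι} (hi : f i = 0) :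
    P = 0 := by
  classical
  have h1 : Tendsto (fun s : Finset ι => ∏ j ∈ s, f j) atTop (𝓝 0) := by
    apply tendsto_const_nhds.congr'
    filter_upwards [eventually_ge_atTop {i}] with s hs
    symm
    exact Finset.prod_eq_zero (hs (Finset.mem_singleton_self i)) hi
  exact tendsto_nhds_unique h h1

lemma exists_enum : Nonempty (ℕ ≃ Idx) := by
  have : Infinite Idx := by
    have hcard : ∀ k : ℕ, 0 < 2 ^ (((⟨0, J_pos k⟩ : Fin (J k)) : ℕ) + 1) - 1 := by
      intro k
      simp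
    apply Infinite.of_injective (fun k : ℕ => (⟨k, ⟨⟨0, J_pos k⟩, ⟨0, hcard k⟩⟩⟩ : Idx))
    intro k k' h
    exact congrArg Sigma.fst h
  exact nonempty_equiv_of_countable

/-- The nodes. -/
def zseq (n : ℕ) : ℂ := Z (v (exists_enum.some n))

lemma zseq_mem (n : ℕ) : zseq n ∈ ball (0:ℂ) 1 := Z_mem (v_im_pos _)

lemma F_zseq (n : ℕ) : F (zseq n) = Pool.Agent.Helper897.NevF.f nu (v (exists_enum.some n)) := by
  unfold F zseq
  rw [W_Z (v_im_pos _)]

lemma zseq_blaschke : IsBlaschkeSequence zseq := by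
  refine ⟨?_, ?_, ?_⟩
  · intro m n hmn
    have h1 := congrArg W hmn
    unfold zseq at h1
    rw [W_Z (v_im_pos _), W_Z (v_im_pos _)] at h1
    exact exists_enum.some.injective (v_inj h1)
  · intro n
    have := zseq_mem n
    simpa using this
  · exact (exists_enum.some.summable_iff (f := fun a : Idx => 1 - ‖Z (v a)‖)).2 summable_Z

lemma zseq_sep : IsWeaklySeparated zseq := by
  refine ⟨1/3, by norm_num, ?_⟩
  intro m n hmn
  unfold rho zseq
  rw [rho_transfer (v_im_pos _) (v_im_pos _)]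
  apply rho_sep
  intro h
  exact hmn (exists_enum.some.injective h)

lemma zseq_decay : Tendsto (fun n => F (zseq n)) atTop (𝓝 0) := by
  simp_rw [F_zseq]
  have h1 := f_tendsto.comp exists_enum.some.injective.tendsto_cofinite
  rw [Nat.cofinite_eq_atTop] at h1
  exact h1

/-- `F` is not a constant multiple of a Blaschke product: it has no zeros and is not constant. -/
lemma F_not_blaschke : ¬ ∃ (c : ℂ) (B : ℂ → ℂ), IsBlaschkeProduct B ∧
    ∀ w ∈ ball (0:ℂ) 1, F w = c * B w := by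
  rintro ⟨c, B, ⟨θ, k, ι, _, a, ha, -, hB⟩, hSB⟩
  have hk : k = 0 := by
    by_contra hk
    obtain ⟨P, -, hP⟩ := hB 0 (by simp)
    have h1 := hSB 0 (by simp)
    rw [hP, zero_pow hk] at h1
    simp only [mul_zero, zero_mul] at h1
    exact F_ne_zero 0 h1
  subst hk
  by_cases hι : Nonempty ι
  · obtain ⟨i⟩ := hι
    have hmem : a i ∈ ball (0:ℂ) 1 := by simpa using (ha i).2
    obtain ⟨P, hP1, hP2⟩ := hB (a i) hmem
    have hP0 : P = 0 := hasProd_zero_of hP1 (i := i) (by simp)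
    have h1 := hSB (a i) hmem
    rw [hP2, hP0, mul_zero, mul_zero] at h1
    exact F_ne_zero _ h1
  · rw [not_nonempty_iff] at hι
    have hconst : ∀ w ∈ ball (0:ℂ) 1, F w = c * Complex.exp (θ * I) := by
      intro w hw
      obtain ⟨P, hP1, hP2⟩ := hB w hw
      have hP : P = 1 := hP1.unique hasProd_empty
      rw [hSB w hw, hP2, hP]
      simp
    have h1 : Tendsto (fun n => F (zseq n)) atTop (𝓝 (c * Complex.exp (θ * I))) := by
      have : (fun n => F (zseq n)) = fun _ => c * Complex.exp (θ * I) := by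
        funext n
        exact hconst _ (zseq_mem n)
      rw [this]
      exact tendsto_const_nhds
    have h2 := tendsto_nhds_unique h1 zseq_decay
    apply F_ne_zero 0
    rw [hconst 0 (by simp), h2]

lemma F_unique : IsUniqueMinimalNormInterpolant F zseq F := by
  apply unique_minimal
  intro h hh hb hS
  have hZd : DifferentiableOn ℂ Z {w | 0 < w.im} := by
    intro w hw
    apply DifferentiableAt.differentiableWithinAt
    unfold Z
    exact DifferentiableAt.div (by fun_prop) (by fun_prop) (add_I_ne hw)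
  have hmain := uniq nu v v_im_pos v_inj cl (by
      intro k a ha
      unfold cl at ha
      rw [Finset.mem_map] at ha
      obtain ⟨b, -, rfl⟩ := ha
      exact v_norm _) cl_sum_ge nu_ne nu_supp nu_V (H := fun w => h (Z w))
    (hh.comp hZd (fun w hw => Z_mem hw)) (fun w hw => hb _ (Z_mem hw)) (by
      intro a
      obtain ⟨n, hn⟩ := exists_enum.some.surjective a
      have h1 := hS n
      rw [F_zseq, hn] at h1
      unfold zseq at h1
      rw [hn] at h1
      exact h1)
  intro z hz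
  have h1 := hmain (show W z ∈ {w : ℂ | 0 < w.im} from W_im_pos hz)
  simp only [Z_W hz] at h1
  exact h1

/-- **Disproof of both assertions of Q2.** There are `f ∈ H^∞` and a weakly separated Blaschke
sequence with `f(z_n) → 0` for which the minimal-norm interpolant is unique but is not a constant
multiple of any Blaschke product. -/
theorem result :
    ¬ ∀ (f : ℂ → ℂ) (z : ℕ → ℂ), InHinf f → IsBlaschkeSequence z → IsWeaklySeparated z →
      Tendsto (fun n => f (z n)) atTop (𝓝 0) →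
      ∀ g : ℂ → ℂ, IsUniqueMinimalNormInterpolant f z g →
        ∃ (c : ℂ) (B : ℂ → ℂ), IsBlaschkeProduct B ∧ ∀ w ∈ ball (0:ℂ) 1, g w = c * B w := by
  intro H
  exact F_not_blaschke (H F zseq F_inHinf zseq_blaschke zseq_sep zseq_decay F F_unique)

end

end Pool.Agent.Results.MP_e1108f_an.DecayNotBlaschke
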